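import Mathlib
import Pool.Agent.H16.BarRig

set_option autoImplicit false

namespace Pool.Agent.Results.MP_ab14aa_co.Dixon
open Pool.Agent.H16.BarRig

/-- The points p 0, ..., p (n+2), in this cyclic order, are the vertices of a strictly convex
polygon (counterclockwise): every other vertex lies strictly to the left of each side. -/
def StrictlyConvex {n : ℕ} (p : Fin (n + 3) → E2) : Prop :=
  ∀ i j : Fin (n + 3), j ≠ i → j ≠ i + 1 →
    0 < (p (i + 1) 0 - p i 0) * (p j 1 - p i 1) - (p (i + 1) 1 - p i 1) * (p j 0 - p i 0)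

/-- m-connected: more than m vertices, and connected after deleting fewer than m vertices. -/
def KConn {n : ℕ} (m : ℕ) (G : SimpleGraph (Fin n)) : Prop :=
  m < n ∧ ∀ X : Finset (Fin n), X.card < m → (G.induce ((↑X : Set (Fin n))ᶜ)).Connected

def eb : Fin 12 → Fin 12 → Bool :=
  ![![false, true, false, true, false, false, false, true, false, false, false, true],
    ![true, false, true, false, false, true, false, false, true, false, false, false],
    ![false, true, false, true, false, false, false, true, false, false, true, false],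
    ![true, false, true, false, true, false, false, false, true, false, false, false],
    ![false, false, false, true, false, true, true, false, false, false, false, false],
    ![false, true, false, false, true, false, true, false, false, false, false, false],
    ![false, false, false, false, true, true, false, true, false, false, false, false],
    ![true, false, true, false, false, false, true, false, true, false, false, false],
    ![false, true, false, true, false, false, false, true, false, true, false, false],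
    ![false, false, false, false, false, false, false, false, true, false, true, true],
    ![false, false, true, false, false, false, false, false, false, true, false, true],
    ![true, false, false, false, false, false, false, false, false, true, true, false]]

def G0 : SimpleGraph (Fin 12) where
  Adj u v := eb u v = true
  symm := ⟨by decide⟩
  loopless := ⟨by decide⟩

instance : DecidableRel G0.Adj := fun u v => inferInstanceAs (Decidable (eb u v = true))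

def em (x : Fin 12 × Fin 2) : Fin 12 × Fin 12 :=
  (![![(0, 1), (0, 1)], ![(0, 1), (0, 1)], ![(0, 3), (0, 7)], ![(1, 2), (2, 3)], ![(2, 7), (1, 8)], ![(3, 8), (7, 8)], ![(3, 4), (4, 5)], ![(5, 6), (6, 7)], ![(4, 6), (1, 5)], ![(8, 9), (9, 10)], ![(10, 11), (0, 11)], ![(9, 11), (2, 10)]] : Fin 12 → Fin 2 → Fin 12 × Fin 12) x.1 x.2

def p0 (x : Fin 12 × Fin 2) : ℚ :=
  (![![1, 2], ![2, 0], ![2, 1], ![2, 2], ![2, 0], ![1, 0], ![0, 2], ![1, 0], ![0, 0], ![1, 2], ![2, 0], ![1, 1]] : Fin 12 → Fin 2 → ℚ) x.1 x.2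

theorem genr : GenRigid G0 := by
  refine gen_rigid G0 0 1 (by decide) em (by decide) p0 fun δ hδ => ?_
  have h := fun x => (RM_mulVec 0 1 em p0 δ x).symm.trans (congrFun hδ x)
  have e0 : δ (0, 0) = 0 := by
    have := h (0, 0)
    rw [if_pos (by decide)] at this
    exact this
  have e1 : δ (0, 1) = 0 := by
    have := h (0, 1)
    rw [if_pos (by decide)] at this
    exact this
  have e2 : δ (1, 0) = 0 := by
    have := h (1, 0)
    rw [if_pos (by decide)] at this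
    exact this
  have e3 : δ (1, 1) = 0 := by
    have := h (1, 1)
    rw [if_pos (by decide)] at this
    exact this
  have e4 : ((1 : ℚ) - 2) * (δ (0, 0) - δ (3, 0)) + ((2 : ℚ) - 2) * (δ (0, 1) - δ (3, 1)) = 0 := by
    have := h (2, 0)
    rw [if_neg (by decide)] at this
    exact this
  have e5 : ((1 : ℚ) - 1) * (δ (0, 0) - δ (7, 0)) + ((2 : ℚ) - 0) * (δ (0, 1) - δ (7, 1)) = 0 := by
    have := h (2, 1)
    rw [if_neg (by decide)] at this
    exact this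
  have e6 : ((2 : ℚ) - 2) * (δ (1, 0) - δ (2, 0)) + ((0 : ℚ) - 1) * (δ (1, 1) - δ (2, 1)) = 0 := by
    have := h (3, 0)
    rw [if_neg (by decide)] at this
    exact this
  have e7 : ((2 : ℚ) - 2) * (δ (2, 0) - δ (3, 0)) + ((1 : ℚ) - 2) * (δ (2, 1) - δ (3, 1)) = 0 := by
    have := h (3, 1)
    rw [if_neg (by decide)] at this
    exact this
  have e8 : ((2 : ℚ) - 1) * (δ (2, 0) - δ (7, 0)) + ((1 : ℚ) - 0) * (δ (2, 1) - δ (7, 1)) = 0 := by
    have := h (4, 0)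
    rw [if_neg (by decide)] at this
    exact this
  have e9 : ((2 : ℚ) - 0) * (δ (1, 0) - δ (8, 0)) + ((0 : ℚ) - 0) * (δ (1, 1) - δ (8, 1)) = 0 := by
    have := h (4, 1)
    rw [if_neg (by decide)] at this
    exact this
  have e10 : ((2 : ℚ) - 0) * (δ (3, 0) - δ (8, 0)) + ((2 : ℚ) - 0) * (δ (3, 1) - δ (8, 1)) = 0 := by
    have := h (5, 0)
    rw [if_neg (by decide)] at this
    exact this
  have e11 : ((1 : ℚ) - 0) * (δ (7, 0) - δ (8, 0)) + ((0 : ℚ) - 0) * (δ (7, 1) - δ (8, 1)) = 0 := by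
    have := h (5, 1)
    rw [if_neg (by decide)] at this
    exact this
  have e12 : ((2 : ℚ) - 2) * (δ (3, 0) - δ (4, 0)) + ((2 : ℚ) - 0) * (δ (3, 1) - δ (4, 1)) = 0 := by
    have := h (6, 0)
    rw [if_neg (by decide)] at this
    exact this
  have e13 : ((2 : ℚ) - 1) * (δ (4, 0) - δ (5, 0)) + ((0 : ℚ) - 0) * (δ (4, 1) - δ (5, 1)) = 0 := by
    have := h (6, 1)
    rw [if_neg (by decide)] at this
    exact this
  have e14 : ((1 : ℚ) - 0) * (δ (5, 0) - δ (6, 0)) + ((0 : ℚ) - 2) * (δ (5, 1) - δ (6, 1)) = 0 := by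
    have := h (7, 0)
    rw [if_neg (by decide)] at this
    exact this
  have e15 : ((0 : ℚ) - 1) * (δ (6, 0) - δ (7, 0)) + ((2 : ℚ) - 0) * (δ (6, 1) - δ (7, 1)) = 0 := by
    have := h (7, 1)
    rw [if_neg (by decide)] at this
    exact this
  have e16 : ((2 : ℚ) - 0) * (δ (4, 0) - δ (6, 0)) + ((0 : ℚ) - 2) * (δ (4, 1) - δ (6, 1)) = 0 := by
    have := h (8, 0)
    rw [if_neg (by decide)] at this
    exact this
  have e17 : ((2 : ℚ) - 1) * (δ (1, 0) - δ (5, 0)) + ((0 : ℚ) - 0) * (δ (1, 1) - δ (5, 1)) = 0 := by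
    have := h (8, 1)
    rw [if_neg (by decide)] at this
    exact this
  have e18 : ((0 : ℚ) - 1) * (δ (8, 0) - δ (9, 0)) + ((0 : ℚ) - 2) * (δ (8, 1) - δ (9, 1)) = 0 := by
    have := h (9, 0)
    rw [if_neg (by decide)] at this
    exact this
  have e19 : ((1 : ℚ) - 2) * (δ (9, 0) - δ (10, 0)) + ((2 : ℚ) - 0) * (δ (9, 1) - δ (10, 1)) = 0 := by
    have := h (9, 1)
    rw [if_neg (by decide)] at this
    exact this
  have e20 : ((2 : ℚ) - 1) * (δ (10, 0) - δ (11, 0)) + ((0 : ℚ) - 1) * (δ (10, 1) - δ (11, 1)) = 0 := by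
    have := h (10, 0)
    rw [if_neg (by decide)] at this
    exact this
  have e21 : ((1 : ℚ) - 1) * (δ (0, 0) - δ (11, 0)) + ((2 : ℚ) - 1) * (δ (0, 1) - δ (11, 1)) = 0 := by
    have := h (10, 1)
    rw [if_neg (by decide)] at this
    exact this
  have e22 : ((1 : ℚ) - 1) * (δ (9, 0) - δ (11, 0)) + ((2 : ℚ) - 1) * (δ (9, 1) - δ (11, 1)) = 0 := by
    have := h (11, 0)
    rw [if_neg (by decide)] at this
    exact this
  have e23 : ((2 : ℚ) - 2) * (δ (2, 0) - δ (10, 0)) + ((1 : ℚ) - 0) * (δ (2, 1) - δ (10, 1)) = 0 := by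
    have := h (11, 1)
    rw [if_neg (by decide)] at this
    exact this
  have d0 : δ (0, 0) = 0 := by
    linear_combination (1) * e0
  have d1 : δ (0, 1) = 0 := by
    linear_combination (1) * e1
  have d2 : δ (1, 0) = 0 := by
    linear_combination (1) * e2
  have d3 : δ (1, 1) = 0 := by
    linear_combination (1) * e3
  have d4 : δ (2, 0) = 0 := by
    linear_combination (1) * e1 + (1) * e2 + (-1) * e3 + (-1/2) * e5 + (-1) * e6 + (1) * e8 + (-1/2) * e9 + (1) * e11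
  have d5 : δ (2, 1) = 0 := by
    linear_combination (1) * e3 + (1) * e6
  have d6 : δ (3, 0) = 0 := by
    linear_combination (1) * e0 + (1) * e4
  have d7 : δ (3, 1) = 0 := by
    linear_combination (1) * e3 + (1) * e6 + (1) * e7
  have d8 : δ (4, 0) = 0 := by
    linear_combination (1) * e2 + (1) * e13 + (-1) * e17
  have d9 : δ (4, 1) = 0 := by
    linear_combination (1) * e3 + (1) * e6 + (1) * e7 + (-1/2) * e12
  have d10 : δ (5, 0) = 0 := by
    linear_combination (1) * e2 + (-1) * e17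
  have d11 : δ (5, 1) = 0 := by
    linear_combination (1) * e1 + (-1/2) * e5 + (1/4) * e9 + (-1/2) * e11 + (-1/2) * e14 + (1/2) * e15 + (-1/2) * e17
  have d12 : δ (6, 0) = 0 := by
    linear_combination (2) * e1 + (1) * e2 + (-2) * e3 + (-1) * e5 + (-2) * e6 + (-2) * e7 + (1/2) * e9 + (-1) * e11 + (1) * e12 + (2) * e13 + (1) * e15 + (-1) * e16 + (-2) * e17
  have d13 : δ (6, 1) = 0 := by
    linear_combination (2) * e1 + (-1) * e3 + (-1) * e5 + (-1) * e6 + (-1) * e7 + (1/2) * e9 + (-1) * e11 + (1/2) * e12 + (1) * e13 + (1) * e15 + (-1/2) * e16 + (-1) * e17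
  have d14 : δ (7, 0) = 0 := by
    linear_combination (1) * e2 + (-1/2) * e9 + (1) * e11
  have d15 : δ (7, 1) = 0 := by
    linear_combination (1) * e1 + (-1/2) * e5
  have d16 : δ (8, 0) = 0 := by
    linear_combination (1) * e2 + (-1/2) * e9
  have d17 : δ (8, 1) = 0 := by
    linear_combination (1) * e0 + (-1) * e2 + (1) * e3 + (1) * e4 + (1) * e6 + (1) * e7 + (1/2) * e9 + (-1/2) * e10
  have d18 : δ (9, 0) = 0 := by
    linear_combination (2) * e0 + (-2) * e1 + (-1) * e2 + (2) * e3 + (2) * e4 + (2) * e6 + (2) * e7 + (1/2) * e9 + (-1) * e10 + (1) * e18 + (2) * e21 + (-2) * e22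
  have d19 : δ (9, 1) = 0 := by
    linear_combination (1) * e1 + (-1) * e21 + (1) * e22
  have d20 : δ (10, 0) = 0 := by
    linear_combination (2) * e0 + (-4) * e1 + (-1) * e2 + (4) * e3 + (2) * e4 + (4) * e6 + (2) * e7 + (1/2) * e9 + (-1) * e10 + (1) * e18 + (1) * e19 + (4) * e21 + (-4) * e22 + (-2) * e23
  have d21 : δ (10, 1) = 0 := by
    linear_combination (1) * e3 + (1) * e6 + (-1) * e23
  have d22 : δ (11, 0) = 0 := by
    linear_combination (2) * e0 + (-3) * e1 + (-1) * e2 + (3) * e3 + (2) * e4 + (3) * e6 + (2) * e7 + (1/2) * e9 + (-1) * e10 + (1) * e18 + (1) * e19 + (-1) * e20 + (3) * e21 + (-4) * e22 + (-1) * e23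
  have d23 : δ (11, 1) = 0 := by
    linear_combination (1) * e1 + (-1) * e21
  ext ⟨v, k⟩
  fin_cases v <;> fin_cases k <;> assumption

def rt : List (List ℕ) :=
  [[1, 2, 1, 1, 1, 1, 1, 1, 1, 1, 1, 1],
   [2, 0, 0, 0, 0, 0, 0, 0, 0, 0, 0, 0],
   [1, 0, 0, 0, 0, 0, 0, 0, 0, 0, 0, 0],
   [1, 0, 0, 0, 0, 0, 0, 0, 0, 0, 0, 0],
   [1, 0, 0, 0, 0, 0, 0, 0, 0, 0, 0, 0],
   [1, 0, 0, 0, 0, 0, 0, 0, 0, 0, 0, 0],
   [1, 0, 0, 0, 0, 0, 0, 0, 0, 0, 0, 0],
   [1, 0, 0, 0, 0, 0, 0, 0, 0, 0, 0, 0],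
   [1, 0, 0, 0, 0, 0, 0, 0, 0, 0, 0, 0],
   [1, 0, 0, 0, 0, 0, 0, 0, 0, 0, 0, 0],
   [1, 0, 0, 0, 0, 0, 0, 0, 0, 0, 0, 0],
   [1, 0, 0, 0, 0, 0, 0, 0, 0, 0, 0, 0]]

def pt : List (List ℕ) :=
  [[178675556622609, 178821622080034, 168781562609937, 178675556618513, 178675556360465, 178675590045969, 178675489513745, 178675288187153, 178812995576081, 178194520285457, 159983858950417, 20345882222865],
   [178821622080034, 12863548883712, 12863548882944, 12880731047680, 12863550784256, 12863544689408, 12863431443200, 12863498552064, 12850663981824, 12107634639616, 768920978176, 2761785803520],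
   [168781562609937, 12863548882944, 12854955802624, 12854955933696, 12854955606016, 12854954754048, 12854838362112, 12854922248192, 12850660835328, 12099041558528, 760327897088, 10449774116864],
   [178675556618513, 12880731047680, 12854955933696, 12854955933952, 12854955606272, 12854954950912, 12854838493440, 12854922379520, 12850660966656, 12099041689856, 760328028416, 2753192853760],
   [178675556360465, 12863550784256, 12854955606016, 12854955606272, 12854955606272, 12854954557696, 12854838165760, 12854922051840, 12850660638976, 12099041362176, 760327700736, 2753192526080],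
   [178675590045969, 12863544689408, 12854954754048, 12854954950912, 12854954557696, 12854954754304, 12854837313792, 12854904422656, 12850659787008, 12099040510208, 760326848768, 2753191674112],
   [178675489513745, 12863431443200, 12854838362112, 12854838493440, 12854838165760, 12854837313792, 12854838362368, 12854838362368, 12850543395072, 12098924118272, 760210456832, 2753075282176],
   [178675288187153, 12863498552064, 12854922248192, 12854922379520, 12854922051840, 12854904422656, 12854838362368, 12854922248448, 12850627281152, 12099008004352, 760294342912, 2753159168256],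
   [178812995576081, 12850663981824, 12850660835328, 12850660966656, 12850660638976, 12850659787008, 12850543395072, 12850627281152, 12850660835584, 12094746591488, 756032930048, 2886336708864],
   [178194520285457, 12107634639616, 12099041558528, 12099041689856, 12099041362176, 12099040510208, 12098924118272, 12099008004352, 12094746591488, 12099041558784, 4413653248, 2203436908800],
   [159983858950417, 768920978176, 760327897088, 760328028416, 760327700736, 760326848768, 760210456832, 760294342912, 756032930048, 4413653248, 760327897344, 554169467136],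
   [20345882222865, 2761785803520, 10449774116864, 2753192853760, 2753192526080, 2753191674112, 2753075282176, 2753159168256, 2886336708864, 2203436908800, 554169467136, 2753192722688]]

def dt : List (List ℕ) :=
  [[55117886923008, 36430217875456, 56217398550528, 55117886914816, 55117886791936, 55117902717184, 55117853368576, 55117350052096, 55182311432448, 54980447969536, 52918863667456, 2341328789760],
   [36430217875456, 19937543459328, 19937543458816, 19937543520768, 19937543328256, 19937540313600, 19937509904896, 19937291801088, 19928953524736, 19800104505856, 17738520203776, 3513588519424],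
   [56217398550528, 19937543458816, 19937542410256, 19937542471696, 19937542279184, 19937540313104, 19937508855824, 19937290752016, 19928952475664, 19800103456784, 17738519154704, 4613099098128],
   [55117886914816, 19937543520768, 19937542471696, 19937542472208, 19937542275600, 19937540375056, 19937508917776, 19937290813968, 19928952537616, 19800103518736, 17738519216656, 3513587532304],
   [55117886791936, 19937543328256, 19937542279184, 19937542275600, 19937542279696, 19937540182544, 19937508725264, 19937290621456, 19928952345104, 19800103326224, 17738519024144, 3513587339792],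
   [55117902717184, 19937540313600, 19937540313104, 19937540375056, 19937540182544, 19937540313616, 19937506759184, 19937288655376, 19928950379024, 19800101360144, 17738517058064, 3513585373712],
   [55117853368576, 19937509904896, 19937508855824, 19937508917776, 19937508725264, 19937506759184, 19937508856336, 19937240420880, 19928918921744, 19800069902864, 17738485600784, 3513553916432],
   [55117350052096, 19937291801088, 19937290752016, 19937290813968, 19937290621456, 19937288655376, 19937240420880, 19937290752528, 19928700817936, 19799851799056, 17738267496976, 3513335812624],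
   [55182311432448, 19928953524736, 19928952475664, 19928952537616, 19928952345104, 19928950379024, 19928918921744, 19928700817936, 19928952476176, 19791513522704, 17729929220624, 3573717013008],
   [54980447969536, 19800104505856, 19800103456784, 19800103518736, 19800103326224, 19800101360144, 19800069902864, 19799851799056, 19791513522704, 19800103457296, 17601080201744, 3307429040656],
   [52918863667456, 17738520203776, 17738519154704, 17738519216656, 17738519024144, 17738517058064, 17738485600784, 17738267496976, 17729929220624, 17601080201744, 17738519155216, 215052587536],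
   [2341328789760, 3513588519424, 4613099098128, 3513587532304, 3513587339792, 3513585373712, 3513553916432, 3513335812624, 3573717013008, 3307429040656, 215052587536, 3513587470864]]

def rootf (a b : Fin 12) : Fin 12 := Fin.ofNat 12 ((rt.getD a.val []).getD b.val 0)
def parf (a b v : Fin 12) : Fin 12 := Fin.ofNat 12 ((pt.getD a.val []).getD b.val 0 / 16 ^ v.val % 16)
def depf (a b v : Fin 12) : ℕ := (dt.getD a.val []).getD b.val 0 / 16 ^ v.val % 16

theorem cert : ∀ a b : Fin 12, (rootf a b ≠ a ∧ rootf a b ≠ b) ∧ ∀ v : Fin 12, v ≠ a → v ≠ b →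
    v = rootf a b ∨ (parf a b v ≠ a ∧ parf a b v ≠ b ∧ eb (parf a b v) v = true ∧
      depf a b (parf a b v) < depf a b v) := by decide +kernel

theorem conn3 : KConn 3 G0 := by
  refine ⟨by decide, fun X hX => ?_⟩
  have two : ∀ a b : Fin 12, (G0.induce (({a, b} : Set (Fin 12))ᶜ)).Connected := by
    intro a b
    refine conn_of_cert G0 _ (rootf a b) (by simpa using (cert a b).1) (parf a b) (depf a b) ?_
    intro v hv
    simp only [Set.mem_insert_iff, Set.mem_singleton_iff, not_or] at hv ⊢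
    rcases (cert a b).2 v hv.1 hv.2 with h | ⟨h1, h2, h3, h4⟩
    · exact Or.inl h
    · exact Or.inr ⟨⟨h1, h2⟩, h3, h4⟩
  have h : X.card = 0 ∨ X.card = 1 ∨ X.card = 2 := by omega
  rcases h with h | h | h
  · rw [Finset.card_eq_zero.1 h]
    refine conn_of_cert G0 _ 0 (by simp) ![0, 0, 1, 0, 3, 1, 7, 0, 1, 8, 11, 0]
      ![0, 1, 2, 1, 2, 2, 2, 1, 2, 3, 2, 1] fun v _ => ?_
    have : ∀ v : Fin 12, v = 0 ∨ (G0.Adj (![0, 0, 1, 0, 3, 1, 7, 0, 1, 8, 11, 0] v) v ∧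
        (![0, 1, 2, 1, 2, 2, 2, 1, 2, 3, 2, 1] : Fin 12 → ℕ) (![0, 0, 1, 0, 3, 1, 7, 0, 1, 8, 11, 0] v)
          < (![0, 1, 2, 1, 2, 2, 2, 1, 2, 3, 2, 1] : Fin 12 → ℕ) v) := by decide
    rcases this v with h | h
    · exact Or.inl h
    · exact Or.inr ⟨by simp, h⟩
  · obtain ⟨a, rfl⟩ := Finset.card_eq_one.1 h
    have := two a a
    rw [Set.pair_eq_singleton] at this
    rw [Finset.coe_singleton]
    exact this
  · obtain ⟨a, b, -, rfl⟩ := Finset.card_eq_two.1 h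
    rw [Finset.coe_pair]
    exact two a b

def x0 : Fin 16 → ℝ := ![30, 10, 10, 30, -7, -34, -1, -37, 5, -34, 34, -5, 36, 1, 33, 6]

noncomputable def pos (x : Fin 16 → ℝ) : Fin 12 → E2 :=
  ![!₂[x 0, x 1], !₂[x 2, x 3], !₂[-x 0, x 1], !₂[-x 2, -x 3], !₂[x 4, x 5], !₂[x 6, x 7], !₂[x 8, x 9], !₂[x 2, -x 3], !₂[x 0, -x 1], !₂[x 10, x 11], !₂[x 12, x 13], !₂[x 14, x 15]]

def Phi (x : Fin 16 → ℝ) : Fin 16 → ℝ :=
  ![x 0,
    x 0 * x 2,
    x 1 * x 3,
    x 0 ^ 2 + x 1 ^ 2 + x 2 ^ 2 + x 3 ^ 2,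
    (x 4 - -x 2) ^ 2 + (x 5 - -x 3) ^ 2,
    (x 4 - x 6) ^ 2 + (x 5 - x 7) ^ 2,
    (x 6 - x 8) ^ 2 + (x 7 - x 9) ^ 2,
    (x 8 - x 2) ^ 2 + (x 9 - -x 3) ^ 2,
    (x 4 - x 8) ^ 2 + (x 5 - x 9) ^ 2,
    (x 6 - x 2) ^ 2 + (x 7 - x 3) ^ 2,
    (x 10 - x 0) ^ 2 + (x 11 - -x 1) ^ 2,
    (x 10 - x 12) ^ 2 + (x 11 - x 13) ^ 2,
    (x 12 - x 14) ^ 2 + (x 13 - x 15) ^ 2,
    (x 14 - x 0) ^ 2 + (x 15 - x 1) ^ 2,
    (x 10 - x 14) ^ 2 + (x 11 - x 15) ^ 2,
    (x 12 - -x 0) ^ 2 + (x 13 - x 1) ^ 2]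

theorem inj (v : Fin 16 → ℝ) (h : Phi (x0 + v) = Phi (x0 - v)) : v = 0 := by
  have e0 : (30 + v 0) = (30 - v 0) := congrFun h 0
  have e1 : (30 + v 0) * (10 + v 2) = (30 - v 0) * (10 - v 2) := congrFun h 1
  have e2 : (10 + v 1) * (30 + v 3) = (10 - v 1) * (30 - v 3) := congrFun h 2
  have e3 : (30 + v 0) ^ 2 + (10 + v 1) ^ 2 + (10 + v 2) ^ 2 + (30 + v 3) ^ 2 = (30 - v 0) ^ 2 + (10 - v 1) ^ 2 + (10 - v 2) ^ 2 + (30 - v 3) ^ 2 := congrFun h 3
  have e4 : ((-7 + v 4) - -(10 + v 2)) ^ 2 + ((-34 + v 5) - -(30 + v 3)) ^ 2 = ((-7 - v 4) - -(10 - v 2)) ^ 2 + ((-34 - v 5) - -(30 - v 3)) ^ 2 := congrFun h 4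
  have e5 : ((-7 + v 4) - (-1 + v 6)) ^ 2 + ((-34 + v 5) - (-37 + v 7)) ^ 2 = ((-7 - v 4) - (-1 - v 6)) ^ 2 + ((-34 - v 5) - (-37 - v 7)) ^ 2 := congrFun h 5
  have e6 : ((-1 + v 6) - (5 + v 8)) ^ 2 + ((-37 + v 7) - (-34 + v 9)) ^ 2 = ((-1 - v 6) - (5 - v 8)) ^ 2 + ((-37 - v 7) - (-34 - v 9)) ^ 2 := congrFun h 6
  have e7 : ((5 + v 8) - (10 + v 2)) ^ 2 + ((-34 + v 9) - -(30 + v 3)) ^ 2 = ((5 - v 8) - (10 - v 2)) ^ 2 + ((-34 - v 9) - -(30 - v 3)) ^ 2 := congrFun h 7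
  have e8 : ((-7 + v 4) - (5 + v 8)) ^ 2 + ((-34 + v 5) - (-34 + v 9)) ^ 2 = ((-7 - v 4) - (5 - v 8)) ^ 2 + ((-34 - v 5) - (-34 - v 9)) ^ 2 := congrFun h 8
  have e9 : ((-1 + v 6) - (10 + v 2)) ^ 2 + ((-37 + v 7) - (30 + v 3)) ^ 2 = ((-1 - v 6) - (10 - v 2)) ^ 2 + ((-37 - v 7) - (30 - v 3)) ^ 2 := congrFun h 9
  have e10 : ((34 + v 10) - (30 + v 0)) ^ 2 + ((-5 + v 11) - -(10 + v 1)) ^ 2 = ((34 - v 10) - (30 - v 0)) ^ 2 + ((-5 - v 11) - -(10 - v 1)) ^ 2 := congrFun h 10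
  have e11 : ((34 + v 10) - (36 + v 12)) ^ 2 + ((-5 + v 11) - (1 + v 13)) ^ 2 = ((34 - v 10) - (36 - v 12)) ^ 2 + ((-5 - v 11) - (1 - v 13)) ^ 2 := congrFun h 11
  have e12 : ((36 + v 12) - (33 + v 14)) ^ 2 + ((1 + v 13) - (6 + v 15)) ^ 2 = ((36 - v 12) - (33 - v 14)) ^ 2 + ((1 - v 13) - (6 - v 15)) ^ 2 := congrFun h 12
  have e13 : ((33 + v 14) - (30 + v 0)) ^ 2 + ((6 + v 15) - (10 + v 1)) ^ 2 = ((33 - v 14) - (30 - v 0)) ^ 2 + ((6 - v 15) - (10 - v 1)) ^ 2 := congrFun h 13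
  have e14 : ((34 + v 10) - (33 + v 14)) ^ 2 + ((-5 + v 11) - (6 + v 15)) ^ 2 = ((34 - v 10) - (33 - v 14)) ^ 2 + ((-5 - v 11) - (6 - v 15)) ^ 2 := congrFun h 14
  have e15 : ((36 + v 12) - -(30 + v 0)) ^ 2 + ((1 + v 13) - (10 + v 1)) ^ 2 = ((36 - v 12) - -(30 - v 0)) ^ 2 + ((1 - v 13) - (10 - v 1)) ^ 2 := congrFun h 15
  have d0 : v 0 = 0 := by
    linear_combination (1/2) * e0
  have d1 : v 1 = 0 := by
    linear_combination (1/6) * e0 + (1/480) * e1 + (3/160) * e2 + (-1/320) * e3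
  have d2 : v 2 = 0 := by
    linear_combination (-1/6) * e0 + (1/60) * e1
  have d3 : v 3 = 0 := by
    linear_combination (-1/2) * e0 + (-1/160) * e1 + (-1/160) * e2 + (3/320) * e3
  have d4 : v 4 = 0 := by
    linear_combination (919/180) * e0 + (287/1800) * e1 + (67/900) * e2 + (-67/600) * e3 + (-41/240) * e4 + (-41/180) * e5 + (-29/108) * e6 + (-29/144) * e7 + (29/576) * e8 + (1/45) * e9
  have d5 : v 5 = 0 := by
    linear_combination (1009/240) * e0 + (83/600) * e1 + (149/2400) * e2 + (-149/1600) * e3 + (-61/320) * e4 + (-41/240) * e5 + (-29/144) * e6 + (-29/192) * e7 + (29/768) * e8 + (1/60) * e9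
  have d6 : v 6 = 0 := by
    linear_combination (1823/720) * e0 + (589/7200) * e1 + (67/1800) * e2 + (-67/1200) * e3 + (-67/960) * e4 + (-67/720) * e5 + (-67/432) * e6 + (-67/576) * e7 + (67/2304) * e8 + (1/90) * e9
  have d7 : v 7 = 0 := by
    linear_combination (-679/720) * e0 + (-61/3600) * e1 + (-89/7200) * e2 + (89/4800) * e3 + (11/960) * e4 + (11/720) * e5 + (11/432) * e6 + (11/576) * e7 + (-11/2304) * e8 + (-1/180) * e9
  have d8 : v 8 = 0 := by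
    linear_combination (919/180) * e0 + (287/1800) * e1 + (67/900) * e2 + (-67/600) * e3 + (-41/240) * e4 + (-41/180) * e5 + (-29/108) * e6 + (-29/144) * e7 + (41/576) * e8 + (1/45) * e9
  have d9 : v 9 = 0 := by
    linear_combination (-877/144) * e0 + (-31/180) * e1 + (-25/288) * e2 + (25/192) * e3 + (41/192) * e4 + (41/144) * e5 + (145/432) * e6 + (109/576) * e7 + (-205/2304) * e8 + (-1/36) * e9
  have d10 : v 10 = 0 := by
    linear_combination (557/148) * e0 + (-31/2368) * e1 + (-279/2368) * e2 + (93/4736) * e3 + (93/592) * e10 + (2929/16576) * e11 + (2001/8288) * e12 + (69/296) * e13 + (-207/8288) * e14 + (-29/1776) * e15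
  have d11 : v 11 = 0 := by
    linear_combination (-3083/1110) * e0 + (149/17760) * e1 + (447/5920) * e2 + (-149/11840) * e3 + (-14/185) * e10 + (-2929/20720) * e11 + (-2001/10360) * e12 + (-69/370) * e13 + (207/10360) * e14 + (29/2220) * e15
  have d12 : v 12 = 0 := by
    linear_combination (-517/740) * e0 + (3/11840) * e1 + (27/11840) * e2 + (-9/23680) * e3 + (-9/2960) * e10 + (-63/11840) * e11 + (-87/5920) * e12 + (-21/1480) * e13 + (9/5920) * e14 + (41/8880) * e15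
  have d13 : v 13 = 0 := by
    linear_combination (-716/555) * e0 + (7/1776) * e1 + (21/592) * e2 + (-7/1184) * e3 + (-33/1480) * e10 + (-231/5920) * e11 + (-319/2960) * e12 + (-77/740) * e13 + (33/2960) * e14 + (9/1480) * e15
  have d14 : v 14 = 0 := by
    linear_combination (-4903/1110) * e0 + (101/8880) * e1 + (303/2960) * e2 + (-101/5920) * e3 + (-101/740) * e10 + (-707/2960) * e11 + (-483/1480) * e12 + (-163/740) * e13 + (101/1480) * e14 + (49/2220) * e15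
  have d15 : v 15 = 0 := by
    linear_combination (-7817/2220) * e0 + (377/35520) * e1 + (1131/11840) * e2 + (-377/23680) * e3 + (-303/2960) * e10 + (-2121/11840) * e11 + (-1449/5920) * e12 + (-337/1480) * e13 + (303/5920) * e14 + (49/2960) * e15
  ext i
  fin_cases i <;> assumption

theorem quad (x v : Fin 16 → ℝ) (s : ℝ) (i : Fin 16) : Phi (x + s • v) i = Phi x i +
    s * ((Phi (x + v) i - Phi (x - v) i) / 2) + s ^ 2 * ((Phi (x + v) i + Phi (x - v) i) / 2 - Phi x i) := by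
  fin_cases i
  · show (x 0 + s * v 0) = (x 0) +
      s * ((((x 0 + v 0)) - ((x 0 - v 0))) / 2) +
      s ^ 2 * ((((x 0 + v 0)) + ((x 0 - v 0))) / 2 - (x 0))
    ring
  · show (x 0 + s * v 0) * (x 2 + s * v 2) = (x 0 * x 2) +
      s * ((((x 0 + v 0) * (x 2 + v 2)) - ((x 0 - v 0) * (x 2 - v 2))) / 2) +
      s ^ 2 * ((((x 0 + v 0) * (x 2 + v 2)) + ((x 0 - v 0) * (x 2 - v 2))) / 2 - (x 0 * x 2))
    ring
  · show (x 1 + s * v 1) * (x 3 + s * v 3) = (x 1 * x 3) +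
      s * ((((x 1 + v 1) * (x 3 + v 3)) - ((x 1 - v 1) * (x 3 - v 3))) / 2) +
      s ^ 2 * ((((x 1 + v 1) * (x 3 + v 3)) + ((x 1 - v 1) * (x 3 - v 3))) / 2 - (x 1 * x 3))
    ring
  · show (x 0 + s * v 0) ^ 2 + (x 1 + s * v 1) ^ 2 + (x 2 + s * v 2) ^ 2 + (x 3 + s * v 3) ^ 2 = (x 0 ^ 2 + x 1 ^ 2 + x 2 ^ 2 + x 3 ^ 2) +
      s * ((((x 0 + v 0) ^ 2 + (x 1 + v 1) ^ 2 + (x 2 + v 2) ^ 2 + (x 3 + v 3) ^ 2) - ((x 0 - v 0) ^ 2 + (x 1 - v 1) ^ 2 + (x 2 - v 2) ^ 2 + (x 3 - v 3) ^ 2)) / 2) +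
      s ^ 2 * ((((x 0 + v 0) ^ 2 + (x 1 + v 1) ^ 2 + (x 2 + v 2) ^ 2 + (x 3 + v 3) ^ 2) + ((x 0 - v 0) ^ 2 + (x 1 - v 1) ^ 2 + (x 2 - v 2) ^ 2 + (x 3 - v 3) ^ 2)) / 2 - (x 0 ^ 2 + x 1 ^ 2 + x 2 ^ 2 + x 3 ^ 2))
    ring
  · show ((x 4 + s * v 4) - -(x 2 + s * v 2)) ^ 2 + ((x 5 + s * v 5) - -(x 3 + s * v 3)) ^ 2 = ((x 4 - -x 2) ^ 2 + (x 5 - -x 3) ^ 2) +
      s * (((((x 4 + v 4) - -(x 2 + v 2)) ^ 2 + ((x 5 + v 5) - -(x 3 + v 3)) ^ 2) - (((x 4 - v 4) - -(x 2 - v 2)) ^ 2 + ((x 5 - v 5) - -(x 3 - v 3)) ^ 2)) / 2) +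
      s ^ 2 * (((((x 4 + v 4) - -(x 2 + v 2)) ^ 2 + ((x 5 + v 5) - -(x 3 + v 3)) ^ 2) + (((x 4 - v 4) - -(x 2 - v 2)) ^ 2 + ((x 5 - v 5) - -(x 3 - v 3)) ^ 2)) / 2 - ((x 4 - -x 2) ^ 2 + (x 5 - -x 3) ^ 2))
    ring
  · show ((x 4 + s * v 4) - (x 6 + s * v 6)) ^ 2 + ((x 5 + s * v 5) - (x 7 + s * v 7)) ^ 2 = ((x 4 - x 6) ^ 2 + (x 5 - x 7) ^ 2) +
      s * (((((x 4 + v 4) - (x 6 + v 6)) ^ 2 + ((x 5 + v 5) - (x 7 + v 7)) ^ 2) - (((x 4 - v 4) - (x 6 - v 6)) ^ 2 + ((x 5 - v 5) - (x 7 - v 7)) ^ 2)) / 2) +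
      s ^ 2 * (((((x 4 + v 4) - (x 6 + v 6)) ^ 2 + ((x 5 + v 5) - (x 7 + v 7)) ^ 2) + (((x 4 - v 4) - (x 6 - v 6)) ^ 2 + ((x 5 - v 5) - (x 7 - v 7)) ^ 2)) / 2 - ((x 4 - x 6) ^ 2 + (x 5 - x 7) ^ 2))
    ring
  · show ((x 6 + s * v 6) - (x 8 + s * v 8)) ^ 2 + ((x 7 + s * v 7) - (x 9 + s * v 9)) ^ 2 = ((x 6 - x 8) ^ 2 + (x 7 - x 9) ^ 2) +
      s * (((((x 6 + v 6) - (x 8 + v 8)) ^ 2 + ((x 7 + v 7) - (x 9 + v 9)) ^ 2) - (((x 6 - v 6) - (x 8 - v 8)) ^ 2 + ((x 7 - v 7) - (x 9 - v 9)) ^ 2)) / 2) +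
      s ^ 2 * (((((x 6 + v 6) - (x 8 + v 8)) ^ 2 + ((x 7 + v 7) - (x 9 + v 9)) ^ 2) + (((x 6 - v 6) - (x 8 - v 8)) ^ 2 + ((x 7 - v 7) - (x 9 - v 9)) ^ 2)) / 2 - ((x 6 - x 8) ^ 2 + (x 7 - x 9) ^ 2))
    ring
  · show ((x 8 + s * v 8) - (x 2 + s * v 2)) ^ 2 + ((x 9 + s * v 9) - -(x 3 + s * v 3)) ^ 2 = ((x 8 - x 2) ^ 2 + (x 9 - -x 3) ^ 2) +
      s * (((((x 8 + v 8) - (x 2 + v 2)) ^ 2 + ((x 9 + v 9) - -(x 3 + v 3)) ^ 2) - (((x 8 - v 8) - (x 2 - v 2)) ^ 2 + ((x 9 - v 9) - -(x 3 - v 3)) ^ 2)) / 2) +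
      s ^ 2 * (((((x 8 + v 8) - (x 2 + v 2)) ^ 2 + ((x 9 + v 9) - -(x 3 + v 3)) ^ 2) + (((x 8 - v 8) - (x 2 - v 2)) ^ 2 + ((x 9 - v 9) - -(x 3 - v 3)) ^ 2)) / 2 - ((x 8 - x 2) ^ 2 + (x 9 - -x 3) ^ 2))
    ring
  · show ((x 4 + s * v 4) - (x 8 + s * v 8)) ^ 2 + ((x 5 + s * v 5) - (x 9 + s * v 9)) ^ 2 = ((x 4 - x 8) ^ 2 + (x 5 - x 9) ^ 2) +
      s * (((((x 4 + v 4) - (x 8 + v 8)) ^ 2 + ((x 5 + v 5) - (x 9 + v 9)) ^ 2) - (((x 4 - v 4) - (x 8 - v 8)) ^ 2 + ((x 5 - v 5) - (x 9 - v 9)) ^ 2)) / 2) +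
      s ^ 2 * (((((x 4 + v 4) - (x 8 + v 8)) ^ 2 + ((x 5 + v 5) - (x 9 + v 9)) ^ 2) + (((x 4 - v 4) - (x 8 - v 8)) ^ 2 + ((x 5 - v 5) - (x 9 - v 9)) ^ 2)) / 2 - ((x 4 - x 8) ^ 2 + (x 5 - x 9) ^ 2))
    ring
  · show ((x 6 + s * v 6) - (x 2 + s * v 2)) ^ 2 + ((x 7 + s * v 7) - (x 3 + s * v 3)) ^ 2 = ((x 6 - x 2) ^ 2 + (x 7 - x 3) ^ 2) +
      s * (((((x 6 + v 6) - (x 2 + v 2)) ^ 2 + ((x 7 + v 7) - (x 3 + v 3)) ^ 2) - (((x 6 - v 6) - (x 2 - v 2)) ^ 2 + ((x 7 - v 7) - (x 3 - v 3)) ^ 2)) / 2) +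
      s ^ 2 * (((((x 6 + v 6) - (x 2 + v 2)) ^ 2 + ((x 7 + v 7) - (x 3 + v 3)) ^ 2) + (((x 6 - v 6) - (x 2 - v 2)) ^ 2 + ((x 7 - v 7) - (x 3 - v 3)) ^ 2)) / 2 - ((x 6 - x 2) ^ 2 + (x 7 - x 3) ^ 2))
    ring
  · show ((x 10 + s * v 10) - (x 0 + s * v 0)) ^ 2 + ((x 11 + s * v 11) - -(x 1 + s * v 1)) ^ 2 = ((x 10 - x 0) ^ 2 + (x 11 - -x 1) ^ 2) +
      s * (((((x 10 + v 10) - (x 0 + v 0)) ^ 2 + ((x 11 + v 11) - -(x 1 + v 1)) ^ 2) - (((x 10 - v 10) - (x 0 - v 0)) ^ 2 + ((x 11 - v 11) - -(x 1 - v 1)) ^ 2)) / 2) +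
      s ^ 2 * (((((x 10 + v 10) - (x 0 + v 0)) ^ 2 + ((x 11 + v 11) - -(x 1 + v 1)) ^ 2) + (((x 10 - v 10) - (x 0 - v 0)) ^ 2 + ((x 11 - v 11) - -(x 1 - v 1)) ^ 2)) / 2 - ((x 10 - x 0) ^ 2 + (x 11 - -x 1) ^ 2))
    ring
  · show ((x 10 + s * v 10) - (x 12 + s * v 12)) ^ 2 + ((x 11 + s * v 11) - (x 13 + s * v 13)) ^ 2 = ((x 10 - x 12) ^ 2 + (x 11 - x 13) ^ 2) +
      s * (((((x 10 + v 10) - (x 12 + v 12)) ^ 2 + ((x 11 + v 11) - (x 13 + v 13)) ^ 2) - (((x 10 - v 10) - (x 12 - v 12)) ^ 2 + ((x 11 - v 11) - (x 13 - v 13)) ^ 2)) / 2) +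
      s ^ 2 * (((((x 10 + v 10) - (x 12 + v 12)) ^ 2 + ((x 11 + v 11) - (x 13 + v 13)) ^ 2) + (((x 10 - v 10) - (x 12 - v 12)) ^ 2 + ((x 11 - v 11) - (x 13 - v 13)) ^ 2)) / 2 - ((x 10 - x 12) ^ 2 + (x 11 - x 13) ^ 2))
    ring
  · show ((x 12 + s * v 12) - (x 14 + s * v 14)) ^ 2 + ((x 13 + s * v 13) - (x 15 + s * v 15)) ^ 2 = ((x 12 - x 14) ^ 2 + (x 13 - x 15) ^ 2) +
      s * (((((x 12 + v 12) - (x 14 + v 14)) ^ 2 + ((x 13 + v 13) - (x 15 + v 15)) ^ 2) - (((x 12 - v 12) - (x 14 - v 14)) ^ 2 + ((x 13 - v 13) - (x 15 - v 15)) ^ 2)) / 2) +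
      s ^ 2 * (((((x 12 + v 12) - (x 14 + v 14)) ^ 2 + ((x 13 + v 13) - (x 15 + v 15)) ^ 2) + (((x 12 - v 12) - (x 14 - v 14)) ^ 2 + ((x 13 - v 13) - (x 15 - v 15)) ^ 2)) / 2 - ((x 12 - x 14) ^ 2 + (x 13 - x 15) ^ 2))
    ring
  · show ((x 14 + s * v 14) - (x 0 + s * v 0)) ^ 2 + ((x 15 + s * v 15) - (x 1 + s * v 1)) ^ 2 = ((x 14 - x 0) ^ 2 + (x 15 - x 1) ^ 2) +
      s * (((((x 14 + v 14) - (x 0 + v 0)) ^ 2 + ((x 15 + v 15) - (x 1 + v 1)) ^ 2) - (((x 14 - v 14) - (x 0 - v 0)) ^ 2 + ((x 15 - v 15) - (x 1 - v 1)) ^ 2)) / 2) +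
      s ^ 2 * (((((x 14 + v 14) - (x 0 + v 0)) ^ 2 + ((x 15 + v 15) - (x 1 + v 1)) ^ 2) + (((x 14 - v 14) - (x 0 - v 0)) ^ 2 + ((x 15 - v 15) - (x 1 - v 1)) ^ 2)) / 2 - ((x 14 - x 0) ^ 2 + (x 15 - x 1) ^ 2))
    ring
  · show ((x 10 + s * v 10) - (x 14 + s * v 14)) ^ 2 + ((x 11 + s * v 11) - (x 15 + s * v 15)) ^ 2 = ((x 10 - x 14) ^ 2 + (x 11 - x 15) ^ 2) +
      s * (((((x 10 + v 10) - (x 14 + v 14)) ^ 2 + ((x 11 + v 11) - (x 15 + v 15)) ^ 2) - (((x 10 - v 10) - (x 14 - v 14)) ^ 2 + ((x 11 - v 11) - (x 15 - v 15)) ^ 2)) / 2) +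
      s ^ 2 * (((((x 10 + v 10) - (x 14 + v 14)) ^ 2 + ((x 11 + v 11) - (x 15 + v 15)) ^ 2) + (((x 10 - v 10) - (x 14 - v 14)) ^ 2 + ((x 11 - v 11) - (x 15 - v 15)) ^ 2)) / 2 - ((x 10 - x 14) ^ 2 + (x 11 - x 15) ^ 2))
    ring
  · show ((x 12 + s * v 12) - -(x 0 + s * v 0)) ^ 2 + ((x 13 + s * v 13) - (x 1 + s * v 1)) ^ 2 = ((x 12 - -x 0) ^ 2 + (x 13 - x 1) ^ 2) +
      s * (((((x 12 + v 12) - -(x 0 + v 0)) ^ 2 + ((x 13 + v 13) - (x 1 + v 1)) ^ 2) - (((x 12 - v 12) - -(x 0 - v 0)) ^ 2 + ((x 13 - v 13) - (x 1 - v 1)) ^ 2)) / 2) +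
      s ^ 2 * (((((x 12 + v 12) - -(x 0 + v 0)) ^ 2 + ((x 13 + v 13) - (x 1 + v 1)) ^ 2) + (((x 12 - v 12) - -(x 0 - v 0)) ^ 2 + ((x 13 - v 13) - (x 1 - v 1)) ^ 2)) / 2 - ((x 12 - -x 0) ^ 2 + (x 13 - x 1) ^ 2))
    ring

theorem flex : Flexible G0 (pos x0) := by
  have hc : ContDiff ℝ 1 Phi := by
    refine contDiff_pi.2 fun i => ?_
    fin_cases i <;> simp only [Phi] <;> simp <;> fun_prop
  obtain ⟨ε, hε, γ, hγ, h0, hΦ⟩ := ift_path Phi hc x0 (Pi.single 0 1) (quad x0) inj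
  have hp : Continuous pos := by
    refine continuous_pi fun i => ?_
    fin_cases i <;> simp only [pos] <;> simp <;> fun_prop
  refine ⟨fun t => pos (γ t), hp.comp_continuousOn hγ, by simp only [h0], ?_, 1, by simp, 0, 2, ?_⟩
  · intro t ht
    have h := hΦ t ht
    show ∀ u v, G0.Adj u v → dist (pos (γ t) u) (pos (γ t) v) = dist (pos x0 u) (pos x0 v)
    generalize γ t = x at h ⊢
    have e1 : x 0 * x 2 = x0 0 * x0 2 := by
      have := congrFun h 1
      rw [Pi.add_apply, Pi.smul_apply, Pi.single_eq_of_ne (by decide), smul_zero, add_zero] at this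
      exact this
    have e2 : x 1 * x 3 = x0 1 * x0 3 := by
      have := congrFun h 2
      rw [Pi.add_apply, Pi.smul_apply, Pi.single_eq_of_ne (by decide), smul_zero, add_zero] at this
      exact this
    have e3 : x 0 ^ 2 + x 1 ^ 2 + x 2 ^ 2 + x 3 ^ 2 = x0 0 ^ 2 + x0 1 ^ 2 + x0 2 ^ 2 + x0 3 ^ 2 := by
      have := congrFun h 3
      rw [Pi.add_apply, Pi.smul_apply, Pi.single_eq_of_ne (by decide), smul_zero, add_zero] at this
      exact this
    have e4 : (x 4 - -x 2) ^ 2 + (x 5 - -x 3) ^ 2 = (x0 4 - -x0 2) ^ 2 + (x0 5 - -x0 3) ^ 2 := by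
      have := congrFun h 4
      rw [Pi.add_apply, Pi.smul_apply, Pi.single_eq_of_ne (by decide), smul_zero, add_zero] at this
      exact this
    have e5 : (x 4 - x 6) ^ 2 + (x 5 - x 7) ^ 2 = (x0 4 - x0 6) ^ 2 + (x0 5 - x0 7) ^ 2 := by
      have := congrFun h 5
      rw [Pi.add_apply, Pi.smul_apply, Pi.single_eq_of_ne (by decide), smul_zero, add_zero] at this
      exact this
    have e6 : (x 6 - x 8) ^ 2 + (x 7 - x 9) ^ 2 = (x0 6 - x0 8) ^ 2 + (x0 7 - x0 9) ^ 2 := by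
      have := congrFun h 6
      rw [Pi.add_apply, Pi.smul_apply, Pi.single_eq_of_ne (by decide), smul_zero, add_zero] at this
      exact this
    have e7 : (x 8 - x 2) ^ 2 + (x 9 - -x 3) ^ 2 = (x0 8 - x0 2) ^ 2 + (x0 9 - -x0 3) ^ 2 := by
      have := congrFun h 7
      rw [Pi.add_apply, Pi.smul_apply, Pi.single_eq_of_ne (by decide), smul_zero, add_zero] at this
      exact this
    have e8 : (x 4 - x 8) ^ 2 + (x 5 - x 9) ^ 2 = (x0 4 - x0 8) ^ 2 + (x0 5 - x0 9) ^ 2 := by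
      have := congrFun h 8
      rw [Pi.add_apply, Pi.smul_apply, Pi.single_eq_of_ne (by decide), smul_zero, add_zero] at this
      exact this
    have e9 : (x 6 - x 2) ^ 2 + (x 7 - x 3) ^ 2 = (x0 6 - x0 2) ^ 2 + (x0 7 - x0 3) ^ 2 := by
      have := congrFun h 9
      rw [Pi.add_apply, Pi.smul_apply, Pi.single_eq_of_ne (by decide), smul_zero, add_zero] at this
      exact this
    have e10 : (x 10 - x 0) ^ 2 + (x 11 - -x 1) ^ 2 = (x0 10 - x0 0) ^ 2 + (x0 11 - -x0 1) ^ 2 := by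
      have := congrFun h 10
      rw [Pi.add_apply, Pi.smul_apply, Pi.single_eq_of_ne (by decide), smul_zero, add_zero] at this
      exact this
    have e11 : (x 10 - x 12) ^ 2 + (x 11 - x 13) ^ 2 = (x0 10 - x0 12) ^ 2 + (x0 11 - x0 13) ^ 2 := by
      have := congrFun h 11
      rw [Pi.add_apply, Pi.smul_apply, Pi.single_eq_of_ne (by decide), smul_zero, add_zero] at this
      exact this
    have e12 : (x 12 - x 14) ^ 2 + (x 13 - x 15) ^ 2 = (x0 12 - x0 14) ^ 2 + (x0 13 - x0 15) ^ 2 := by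
      have := congrFun h 12
      rw [Pi.add_apply, Pi.smul_apply, Pi.single_eq_of_ne (by decide), smul_zero, add_zero] at this
      exact this
    have e13 : (x 14 - x 0) ^ 2 + (x 15 - x 1) ^ 2 = (x0 14 - x0 0) ^ 2 + (x0 15 - x0 1) ^ 2 := by
      have := congrFun h 13
      rw [Pi.add_apply, Pi.smul_apply, Pi.single_eq_of_ne (by decide), smul_zero, add_zero] at this
      exact this
    have e14 : (x 10 - x 14) ^ 2 + (x 11 - x 15) ^ 2 = (x0 10 - x0 14) ^ 2 + (x0 11 - x0 15) ^ 2 := by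
      have := congrFun h 14
      rw [Pi.add_apply, Pi.smul_apply, Pi.single_eq_of_ne (by decide), smul_zero, add_zero] at this
      exact this
    have e15 : (x 12 - -x 0) ^ 2 + (x 13 - x 1) ^ 2 = (x0 12 - -x0 0) ^ 2 + (x0 13 - x0 1) ^ 2 := by
      have := congrFun h 15
      rw [Pi.add_apply, Pi.smul_apply, Pi.single_eq_of_ne (by decide), smul_zero, add_zero] at this
      exact this
    have lt : ∀ u v : Fin 12, (u, v) ∈ ([(0, 1), (0, 3), (0, 7), (1, 2), (2, 3), (2, 7), (1, 8), (3, 8), (7, 8), (3, 4), (4, 5), (5, 6), (6, 7), (4, 6), (1, 5), (8, 9), (9, 10), (10, 11), (0, 11), (9, 11), (2, 10)] : List (Fin 12 × Fin 12)) →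
        dist (pos x u) (pos x v) = dist (pos x0 u) (pos x0 v) := by
      intro u v huv
      rw [dist_iff]
      simp only [List.mem_cons, Prod.mk.injEq, List.not_mem_nil, or_false] at huv
      rcases huv with ⟨rfl, rfl⟩ | ⟨rfl, rfl⟩ | ⟨rfl, rfl⟩ | ⟨rfl, rfl⟩ | ⟨rfl, rfl⟩ | ⟨rfl, rfl⟩ | ⟨rfl, rfl⟩ | ⟨rfl, rfl⟩ | ⟨rfl, rfl⟩ | ⟨rfl, rfl⟩ | ⟨rfl, rfl⟩ | ⟨rfl, rfl⟩ | ⟨rfl, rfl⟩ | ⟨rfl, rfl⟩ | ⟨rfl, rfl⟩ | ⟨rfl, rfl⟩ | ⟨rfl, rfl⟩ | ⟨rfl, rfl⟩ | ⟨rfl, rfl⟩ | ⟨rfl, rfl⟩ | ⟨rfl, rfl⟩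
      · show (x 0 - x 2) ^ 2 + (x 1 - x 3) ^ 2 = (x0 0 - x0 2) ^ 2 + (x0 1 - x0 3) ^ 2
        linear_combination e3 + (-2) * e1 + (-2) * e2
      · show (x 0 - -x 2) ^ 2 + (x 1 - -x 3) ^ 2 = (x0 0 - -x0 2) ^ 2 + (x0 1 - -x0 3) ^ 2
        linear_combination e3 + (2) * e1 + (2) * e2
      · show (x 0 - x 2) ^ 2 + (x 1 - -x 3) ^ 2 = (x0 0 - x0 2) ^ 2 + (x0 1 - -x0 3) ^ 2
        linear_combination e3 + (-2) * e1 + (2) * e2
      · show (x 2 - -x 0) ^ 2 + (x 3 - x 1) ^ 2 = (x0 2 - -x0 0) ^ 2 + (x0 3 - x0 1) ^ 2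
        linear_combination e3 + (2) * e1 + (-2) * e2
      · show (-x 0 - -x 2) ^ 2 + (x 1 - -x 3) ^ 2 = (-x0 0 - -x0 2) ^ 2 + (x0 1 - -x0 3) ^ 2
        linear_combination e3 + (-2) * e1 + (2) * e2
      · show (-x 0 - x 2) ^ 2 + (x 1 - -x 3) ^ 2 = (-x0 0 - x0 2) ^ 2 + (x0 1 - -x0 3) ^ 2
        linear_combination e3 + (2) * e1 + (2) * e2
      · show (x 2 - x 0) ^ 2 + (x 3 - -x 1) ^ 2 = (x0 2 - x0 0) ^ 2 + (x0 3 - -x0 1) ^ 2
        linear_combination e3 + (-2) * e1 + (2) * e2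
      · show (-x 2 - x 0) ^ 2 + (-x 3 - -x 1) ^ 2 = (-x0 2 - x0 0) ^ 2 + (-x0 3 - -x0 1) ^ 2
        linear_combination e3 + (2) * e1 + (-2) * e2
      · show (x 2 - x 0) ^ 2 + (-x 3 - -x 1) ^ 2 = (x0 2 - x0 0) ^ 2 + (-x0 3 - -x0 1) ^ 2
        linear_combination e3 + (-2) * e1 + (-2) * e2
      · show (-x 2 - x 4) ^ 2 + (-x 3 - x 5) ^ 2 = (-x0 2 - x0 4) ^ 2 + (-x0 3 - x0 5) ^ 2
        linear_combination e4
      · show (x 4 - x 6) ^ 2 + (x 5 - x 7) ^ 2 = (x0 4 - x0 6) ^ 2 + (x0 5 - x0 7) ^ 2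
        linear_combination e5
      · show (x 6 - x 8) ^ 2 + (x 7 - x 9) ^ 2 = (x0 6 - x0 8) ^ 2 + (x0 7 - x0 9) ^ 2
        linear_combination e6
      · show (x 8 - x 2) ^ 2 + (x 9 - -x 3) ^ 2 = (x0 8 - x0 2) ^ 2 + (x0 9 - -x0 3) ^ 2
        linear_combination e7
      · show (x 4 - x 8) ^ 2 + (x 5 - x 9) ^ 2 = (x0 4 - x0 8) ^ 2 + (x0 5 - x0 9) ^ 2
        linear_combination e8
      · show (x 2 - x 6) ^ 2 + (x 3 - x 7) ^ 2 = (x0 2 - x0 6) ^ 2 + (x0 3 - x0 7) ^ 2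
        linear_combination e9
      · show (x 0 - x 10) ^ 2 + (-x 1 - x 11) ^ 2 = (x0 0 - x0 10) ^ 2 + (-x0 1 - x0 11) ^ 2
        linear_combination e10
      · show (x 10 - x 12) ^ 2 + (x 11 - x 13) ^ 2 = (x0 10 - x0 12) ^ 2 + (x0 11 - x0 13) ^ 2
        linear_combination e11
      · show (x 12 - x 14) ^ 2 + (x 13 - x 15) ^ 2 = (x0 12 - x0 14) ^ 2 + (x0 13 - x0 15) ^ 2
        linear_combination e12
      · show (x 0 - x 14) ^ 2 + (x 1 - x 15) ^ 2 = (x0 0 - x0 14) ^ 2 + (x0 1 - x0 15) ^ 2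
        linear_combination e13
      · show (x 10 - x 14) ^ 2 + (x 11 - x 15) ^ 2 = (x0 10 - x0 14) ^ 2 + (x0 11 - x0 15) ^ 2
        linear_combination e14
      · show (-x 0 - x 12) ^ 2 + (x 1 - x 13) ^ 2 = (-x0 0 - x0 12) ^ 2 + (x0 1 - x0 13) ^ 2
        linear_combination e15
    intro u v huv
    have hl : ∀ u v : Fin 12, G0.Adj u v → (u, v) ∈ ([(0, 1), (0, 3), (0, 7), (1, 2), (2, 3), (2, 7), (1, 8), (3, 8), (7, 8), (3, 4), (4, 5), (5, 6), (6, 7), (4, 6), (1, 5), (8, 9), (9, 10), (10, 11), (0, 11), (9, 11), (2, 10)] : List (Fin 12 × Fin 12)) ∨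
        (v, u) ∈ ([(0, 1), (0, 3), (0, 7), (1, 2), (2, 3), (2, 7), (1, 8), (3, 8), (7, 8), (3, 4), (4, 5), (5, 6), (6, 7), (4, 6), (1, 5), (8, 9), (9, 10), (10, 11), (0, 11), (9, 11), (2, 10)] : List (Fin 12 × Fin 12)) := by decide +kernel
    rcases hl u v huv with h | h
    · exact lt u v h
    · rw [dist_comm, lt v u h, dist_comm]
  · intro hd
    rw [dist_iff] at hd
    have h1 : γ 1 0 = 30 + 1 * ε * 1 := congrFun (hΦ 1 (by simp)) 0
    have h2 : (γ 1 0 - -γ 1 0) ^ 2 + (γ 1 1 - γ 1 1) ^ 2 = ((30 : ℝ) - -30) ^ 2 + (10 - 10) ^ 2 := hd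
    rw [h1] at h2
    nlinarith

theorem convex : StrictlyConvex (pos x0) := by
  let P : Fin 12 → Fin 2 → ℤ := ![![30, 10], ![10, 30], ![-30, 10], ![-10, -30], ![-7, -34], ![-1, -37], ![5, -34], ![10, -30], ![30, -10], ![34, -5], ![36, 1], ![33, 6]]
  have hP : ∀ i k, pos x0 i k = (P i k : ℝ) := by
    intro i k
    fin_cases i <;> fin_cases k <;> simp [pos, x0, P]
  have hZ : ∀ i j : Fin 12, j ≠ i → j ≠ i + 1 →
      0 < (P (i + 1) 0 - P i 0) * (P j 1 - P i 1) - (P (i + 1) 1 - P i 1) * (P j 0 - P i 0) := by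
    decide +kernel
  intro i j h1 h2
  simp only [hP]
  exact_mod_cast hZ i j h1 h2

theorem result : ∃ (n : ℕ) (G : SimpleGraph (Fin (n + 3))) (p : Fin (n + 3) → E2),
    (∀ i, G.Adj i (i + 1)) ∧ KConn 3 G ∧ GenRigid G ∧ StrictlyConvex p ∧ Flexible G p :=
  ⟨9, G0, pos x0, by decide, conn3, genr, convex, flex⟩

end Pool.Agent.Results.MP_ab14aa_co.Dixon
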